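import Mathlib

set_option autoImplicit false

namespace Pool.H67.GRM

open Finset

/-- The sum of all divisors. -/
def S (n : ℕ) : ℕ := ∑ d ∈ n.divisors, d

theorem S_mul {m n : ℕ} (h : m.Coprime n) : S (m * n) = S m * S n :=
  h.sum_divisors_mul

theorem le_S {n : ℕ} (h : n ≠ 0) : n ≤ S n :=
  Finset.single_le_sum (f := fun d => d) (fun _ _ => Nat.zero_le _) (Nat.mem_divisors_self n h)

theorem lt_S {n : ℕ} (h : 2 ≤ n) : n + 1 ≤ S n := by
  have h1 : ({1, n} : Finset ℕ) ⊆ n.divisors := by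
    intro d hd
    simp only [mem_insert, mem_singleton] at hd
    rcases hd with rfl | rfl
    · simp; omega
    · simp; omega
  have h2 : ∑ d ∈ ({1, n} : Finset ℕ), d ≤ ∑ d ∈ n.divisors, d :=
    Finset.sum_le_sum_of_subset h1
  rw [Finset.sum_pair (by omega)] at h2
  unfold S
  omega

/-- `S v ≤ v ∏ q/(q-1)`. -/
theorem S_le (v : ℕ) : v ≠ 0 →
    (S v : ℝ) ≤ v * ∏ q ∈ v.primeFactors, ((q : ℝ) / (q - 1)) := by
  induction v using Nat.recOnPosPrimePosCoprime with
  | prime_pow p n hp hn =>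
    intro _
    have h1 : (1 : ℝ) < p := by exact_mod_cast hp.one_lt
    rw [Nat.primeFactors_prime_pow hn.ne' hp, Finset.prod_singleton]
    unfold S
    rw [Nat.sum_divisors_prime_pow hp]
    push_cast
    rw [geom_sum_eq (ne_of_gt h1)]
    rw [← mul_div_assoc]
    apply div_le_div_of_nonneg_right _ (by linarith)
    have : (p : ℝ) ^ (n + 1) = p ^ n * p := pow_succ _ _
    linarith
  | zero => intro h; exact absurd rfl h
  | one => intro _; simp [S]
  | coprime a b ha hb hab iha ihb =>
    intro _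
    have ha0 : a ≠ 0 := by omega
    have hb0 : b ≠ 0 := by omega
    rw [S_mul hab, Nat.Coprime.primeFactors_mul hab,
      Finset.prod_union hab.disjoint_primeFactors]
    push_cast
    have h1 := iha ha0
    have h2 := ihb hb0
    have h3 : (0 : ℝ) ≤ S a := Nat.cast_nonneg _
    have h4 : (0 : ℝ) ≤ S b := Nat.cast_nonneg _
    calc (S a : ℝ) * S b ≤ (a * ∏ q ∈ a.primeFactors, ((q : ℝ) / (q - 1))) *
          (b * ∏ q ∈ b.primeFactors, ((q : ℝ) / (q - 1))) :=
          mul_le_mul h1 h2 h4 (h3.trans h1)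
      _ = _ := by ring

/-- A product of `q/(q-1)` over distinct integers `≥ p`. -/
theorem prod_le (T : Finset ℕ) (p : ℕ) (hp : 2 ≤ p) (hT : ∀ q ∈ T, p ≤ q) :
    ∏ q ∈ T, ((q : ℝ) / (q - 1)) ≤ ((p : ℝ) - 1 + T.card) / (p - 1) ∧
      (∀ q ∈ T, True) := by
  refine ⟨?_, fun _ _ => trivial⟩
  induction T using Finset.induction_on_max with
  | empty =>
    simp
    rw [div_self]
    have : (2 : ℝ) ≤ p := by exact_mod_cast hp
    linarith
  | insert q T hq ih =>
    have hp' : (2 : ℝ) ≤ p := by exact_mod_cast hp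
    have hqT : q ∉ T := fun h => lt_irrefl _ (hq q h)
    rw [Finset.prod_insert hqT, Finset.card_insert_of_notMem hqT]
    have ih' := ih (fun r hr => hT r (Finset.mem_insert_of_mem hr))
    have hc : T.card + p ≤ q := by
      have : T ⊆ Finset.Ico p q := by
        intro r hr
        rw [Finset.mem_Ico]
        exact ⟨hT r (Finset.mem_insert_of_mem hr), hq r hr⟩
      have h2 := Finset.card_le_card this
      rw [Nat.card_Ico] at h2
      have := hT q (Finset.mem_insert_self _ _)
      omega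
    have hc' : (T.card : ℝ) + p ≤ q := by exact_mod_cast hc
    have ht : (0 : ℝ) ≤ T.card := Nat.cast_nonneg _
    have h1 : (q : ℝ) / (q - 1) ≤ ((p : ℝ) + T.card) / (p - 1 + T.card) := by
      rw [div_le_div_iff₀ (by linarith) (by linarith)]
      nlinarith
    calc (q : ℝ) / (q - 1) * ∏ r ∈ T, ((r : ℝ) / (r - 1))
        ≤ ((p : ℝ) + T.card) / (p - 1 + T.card) * (((p : ℝ) - 1 + T.card) / (p - 1)) := by
          apply mul_le_mul h1 ih'
          · apply Finset.prod_nonneg
            intro r hr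
            have : p ≤ r := hT r (Finset.mem_insert_of_mem hr)
            have : (p : ℝ) ≤ r := by exact_mod_cast this
            apply div_nonneg (by linarith) (by linarith)
          · apply div_nonneg (by linarith) (by linarith)
      _ = _ := by
          push_cast
          have e1 : (p : ℝ) - 1 + T.card ≠ 0 := by linarith
          have e2 : (p : ℝ) - 1 ≠ 0 := by linarith
          field_simp
          ring

/-- The smallest prime factor of the complement of a unitary divisor. -/
theorem minFac_le {m v : ℕ} (hm : m ≠ 0) (hv : 2 ≤ v)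
    (h : 2 * (S m * S v) + 1 = 3 * (m * v)) :
    v.minFac ≤ 6 * v.primeFactors.card * m := by
  set p := v.minFac with hpdef
  have hp : p.Prime := Nat.minFac_prime (by omega)
  have hp2 := hp.two_le
  have h1 : ∀ q ∈ v.primeFactors, p ≤ q := fun q hq =>
    Nat.minFac_le_of_dvd (Nat.prime_of_mem_primeFactors hq).two_le (Nat.dvd_of_mem_primeFactors hq)
  have h2 := S_le v (by omega)
  have h3 := (prod_le v.primeFactors p hp2 h1).1
  set r := v.primeFactors.card with hr
  have hr1 : 1 ≤ r := by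
    rw [hr]
    apply Finset.card_pos.mpr
    exact ⟨p, Nat.mem_primeFactors.mpr ⟨hp, Nat.minFac_dvd v, by omega⟩⟩
  have hSv := lt_S hv
  have h4 : 2 * S m ≤ 3 * m - 1 ∧ 1 ≤ 3 * m := by
    have : 2 * S m * v < 3 * m * v := by
      have : 2 * S m * v ≤ 2 * S m * S v := Nat.mul_le_mul_left _ (by omega)
      nlinarith
    have := Nat.lt_of_mul_lt_mul_right this
    omega
  -- real inequalities
  have hp' : (2 : ℝ) ≤ p := by exact_mod_cast hp2
  have hv' : (2 : ℝ) ≤ v := by exact_mod_cast hv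
  have hm' : (1 : ℝ) ≤ m := by exact_mod_cast Nat.one_le_iff_ne_zero.mpr hm
  have hr' : (1 : ℝ) ≤ r := by exact_mod_cast hr1
  have a1 : (S v : ℝ) * (p - 1) ≤ v * (p - 1 + r) := by
    have : (S v : ℝ) ≤ v * (((p : ℝ) - 1 + r) / (p - 1)) :=
      h2.trans (mul_le_mul_of_nonneg_left h3 (by linarith))
    rw [← mul_div_assoc, le_div_iff₀ (by linarith)] at this
    exact this
  have a2 : (3 * (m : ℝ) * v - 1) ≤ (3 * m - 1) * S v := by
    have e : (2 : ℝ) * (S m * S v) + 1 = 3 * (m * v) := by exact_mod_cast h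
    have e2 : (2 : ℝ) * S m ≤ 3 * m - 1 := by
      have : 2 * S m + 1 ≤ 3 * m := by omega
      have : (2 : ℝ) * S m + 1 ≤ 3 * m := by exact_mod_cast this
      linarith
    have e3 : (0 : ℝ) ≤ S v := Nat.cast_nonneg _
    nlinarith
  have a3 : ((v : ℝ) - 1) * (p - 1) ≤ (3 * m - 1) * (v * r) := by
    have e1 : (3 * (m : ℝ) * v - 1) * (p - 1) ≤ (3 * m - 1) * (v * (p - 1 + r)) := by
      calc (3 * (m : ℝ) * v - 1) * (p - 1) ≤ ((3 * m - 1) * S v) * (p - 1) :=
            mul_le_mul_of_nonneg_right a2 (by linarith)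
        _ = (3 * m - 1) * (S v * (p - 1)) := by ring
        _ ≤ _ := mul_le_mul_of_nonneg_left a1 (by linarith)
    nlinarith
  have a4 : ((v : ℝ) - 1) * (p - 1) ≤ (v - 1) * (2 * r * (3 * m - 1)) := by
    have : (3 * (m : ℝ) - 1) * (v * r) ≤ (v - 1) * (2 * r * (3 * m - 1)) := by
      have e : (v : ℝ) ≤ 2 * (v - 1) := by linarith
      have e2 : (0 : ℝ) ≤ (3 * m - 1) * r := mul_nonneg (by linarith) (by linarith)
      nlinarith
    linarith
  have a5 : (p : ℝ) - 1 ≤ 2 * r * (3 * m - 1) := le_of_mul_le_mul_left a4 (by linarith)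
  have a6 : (p : ℝ) ≤ 6 * r * m := by nlinarith
  exact_mod_cast a6

end Pool.H67.GRM
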