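import Pool.Agent.H67.GRM.A

set_option autoImplicit false

namespace Pool.H67.GRM

open Finset

/-- Subset products of a slowly growing set are dense. -/
theorem dense (L : ℕ) (hL : 2 ≤ L) (T : Finset ℕ) (hpos : ∀ q ∈ T, 1 ≤ q)
    (hT : ∀ q ∈ T, q ≤ L * ∏ r ∈ T.filter (· < q), r) :
    ∀ Z : ℕ, 1 ≤ Z → Z ≤ ∏ r ∈ T, r → ∃ U ⊆ T, ∏ r ∈ U, r ≤ Z ∧ Z < L * ∏ r ∈ U, r := by
  induction T using Finset.induction_on_max with
  | empty =>
    intro Z h1 h2
    refine ⟨∅, Finset.Subset.refl _, ?_, ?_⟩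
    · simpa using h1
    · simp at h2 ⊢
      omega
  | insert q T hq ih =>
    intro Z h1 h2
    have hqT : q ∉ T := fun h => lt_irrefl _ (hq q h)
    have hfil : ∀ r ∈ T, (insert q T).filter (· < r) = T.filter (· < r) := by
      intro r hr
      rw [Finset.filter_insert, if_neg (by have := hq r hr; omega)]
    have hfq : (insert q T).filter (· < q) = T := by
      rw [Finset.filter_insert, if_neg (lt_irrefl _), Finset.filter_true_of_mem hq]
    have hq1 : q ≤ L * ∏ r ∈ T, r := by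
      have := hT q (Finset.mem_insert_self _ _)
      rwa [hfq] at this
    have ih' := ih (fun r hr => hpos r (Finset.mem_insert_of_mem hr)) (fun r hr => by
      have := hT r (Finset.mem_insert_of_mem hr)
      rwa [hfil r hr] at this)
    have hq0 : 1 ≤ q := hpos q (Finset.mem_insert_self _ _)
    by_cases hZ : Z ≤ ∏ r ∈ T, r
    · obtain ⟨U, hU, h3, h4⟩ := ih' Z h1 hZ
      exact ⟨U, hU.trans (Finset.subset_insert _ _), h3, h4⟩
    · push Not at hZ
      rw [Finset.prod_insert hqT] at h2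
      by_cases hqZ : q ≤ Z
      · obtain ⟨U, hU, h3, h4⟩ := ih' (Z / q) (Nat.div_pos hqZ hq0) (by
          rw [Nat.div_le_iff_le_mul_add_pred hq0]
          omega)
        refine ⟨insert q U, Finset.insert_subset_insert _ hU, ?_, ?_⟩
        · rw [Finset.prod_insert (fun h => hqT (hU h))]
          exact (Nat.mul_le_mul_left q h3).trans (Nat.mul_div_le Z q)
        · rw [Finset.prod_insert (fun h => hqT (hU h))]
          have h5 : Z < q * (Z / q + 1) := Nat.lt_mul_div_succ Z hq0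
          have h6 : q * (Z / q + 1) ≤ q * (L * ∏ r ∈ U, r) := Nat.mul_le_mul_left q h4
          calc Z < q * (Z / q + 1) := h5
            _ ≤ q * (L * ∏ r ∈ U, r) := h6
            _ = L * (q * ∏ r ∈ U, r) := by ring
      · push Not at hqZ
        exact ⟨T, Finset.subset_insert _ _, hZ.le, by omega⟩

/-- Squarefull and squarefree parts. -/
theorem decomp (n : ℕ) : n ≠ 0 → ∃ a b s : ℕ, 1 ≤ a ∧ 1 ≤ b ∧ n = (a ^ 2 * b ^ 3) * s ∧
    (a ^ 2 * b ^ 3).Coprime s ∧ Squarefree s := by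
  induction n using Nat.recOnPosPrimePosCoprime with
  | prime_pow p k hp hk =>
    intro _
    by_cases h1 : k = 1
    · subst h1
      exact ⟨1, 1, p, le_refl _, le_refl _, by simp, by simp, hp.squarefree⟩
    · rcases Nat.even_or_odd' k with ⟨c, hc | hc⟩
      · refine ⟨p ^ c, 1, 1, Nat.one_le_pow _ _ hp.pos, le_refl _, ?_, by simp, squarefree_one⟩
        rw [hc]; ring
      · have h2 : 1 ≤ c := by omega
        obtain ⟨e, rfl⟩ : ∃ e, c = e + 1 := ⟨c - 1, by omega⟩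
        refine ⟨p ^ e, p, 1, Nat.one_le_pow _ _ hp.pos, hp.pos, ?_, by simp, squarefree_one⟩
        rw [hc]; ring
  | zero => intro h; exact absurd rfl h
  | one => intro _; exact ⟨1, 1, 1, le_refl _, le_refl _, by simp, by simp, squarefree_one⟩
  | coprime x y hx hy hxy ihx ihy =>
    intro _
    obtain ⟨a, b, s, ha, hb, hx1, hx2, hx3⟩ := ihx (by omega)
    obtain ⟨a', b', s', ha', hb', hy1, hy2, hy3⟩ := ihy (by omega)
    have hd1 : (a ^ 2 * b ^ 3) ∣ x := ⟨s, hx1⟩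
    have hd2 : s ∣ x := ⟨a ^ 2 * b ^ 3, by rw [hx1]; ring⟩
    have hd3 : (a' ^ 2 * b' ^ 3) ∣ y := ⟨s', hy1⟩
    have hd4 : s' ∣ y := ⟨a' ^ 2 * b' ^ 3, by rw [hy1]; ring⟩
    have c1 : (a ^ 2 * b ^ 3).Coprime s' := (hxy.coprime_dvd_left hd1).coprime_dvd_right hd4
    have c2 : (a' ^ 2 * b' ^ 3).Coprime s := ((hxy.coprime_dvd_left hd2).coprime_dvd_right hd3).symm
    have c3 : s.Coprime s' := (hxy.coprime_dvd_left hd2).coprime_dvd_right hd4
    have e : (a * a') ^ 2 * (b * b') ^ 3 = (a ^ 2 * b ^ 3) * (a' ^ 2 * b' ^ 3) := by ring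
    refine ⟨a * a', b * b', s * s', Nat.mul_pos ha ha', Nat.mul_pos hb hb', ?_, ?_, ?_⟩
    · rw [e]
      calc x * y = (a ^ 2 * b ^ 3 * s) * (a' ^ 2 * b' ^ 3 * s') := by rw [← hx1, ← hy1]
        _ = _ := by ring
    · rw [e]
      exact Nat.Coprime.mul_left (Nat.Coprime.mul_right hx2 c1) (Nat.Coprime.mul_right c2 hy2)
    · exact (Nat.squarefree_mul c3).mpr ⟨hx3, hy3⟩

/-- The number of distinct primes is at most `log₂`. -/
theorem omega_le {n : ℕ} (hn : n ≠ 0) : n.primeFactors.card ≤ Nat.log 2 n := by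
  have h1 : 2 ^ n.primeFactors.card ≤ ∏ q ∈ n.primeFactors, q := by
    rw [← Finset.prod_const]
    exact Finset.prod_le_prod' (fun q hq => (Nat.prime_of_mem_primeFactors hq).two_le)
  have h2 : ∏ q ∈ n.primeFactors, q ≤ n :=
    Nat.le_of_dvd (Nat.pos_of_ne_zero hn) (Nat.prod_primeFactors_dvd n)
  exact Nat.le_log_of_pow_le (by norm_num) (h1.trans h2)

/-- The growth condition for the primes of the squarefree part. -/
theorem growth {f s : ℕ} (hf : f ≠ 0) (hs : Squarefree s) (hc : f.Coprime s)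
    (h : 2 * S (f * s) + 1 = 3 * (f * s)) (K : ℕ) (hK : (f * s).primeFactors.card ≤ K) :
    ∀ q ∈ s.primeFactors, q ≤ (6 * K * f) * ∏ r ∈ s.primeFactors.filter (· < q), r := by
  intro q hq
  have hs0 : s ≠ 0 := hs.ne_zero
  set d := ∏ r ∈ s.primeFactors.filter (· < q), r with hd
  set v := ∏ r ∈ s.primeFactors.filter (fun r => ¬ r < q), r with hv
  have hprime : ∀ r ∈ s.primeFactors, r.Prime := fun r hr => Nat.prime_of_mem_primeFactors hr
  have hdv : d * v = s := by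
    rw [hd, hv, Finset.prod_filter_mul_prod_filter_not]
    exact Nat.prod_primeFactors_of_squarefree hs
  have hcdv : d.Coprime v := by
    rw [hd, hv]
    apply Nat.Coprime.prod_left
    intro i hi
    apply Nat.Coprime.prod_right
    intro j hj
    rw [Finset.mem_filter] at hi hj
    exact (Nat.coprime_primes (hprime i hi.1) (hprime j hj.1)).mpr (by
      intro e; subst e; exact hj.2 hi.2)
  have hv0 : v ≠ 0 := by rintro e; rw [e, mul_zero] at hdv; exact hs0 hdv.symm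
  have hd0 : d ≠ 0 := by rintro e; rw [e, zero_mul] at hdv; exact hs0 hdv.symm
  have hqv : q ∣ v := by
    rw [hv]
    exact Finset.dvd_prod_of_mem _ (Finset.mem_filter.mpr ⟨hq, lt_irrefl _⟩)
  have hqp := hprime q hq
  have hv2 : 2 ≤ v := hqp.two_le.trans (Nat.le_of_dvd (Nat.pos_of_ne_zero hv0) hqv)
  have hmf : q ≤ v.minFac := by
    have h1 := Nat.minFac_prime (n := v) (by omega)
    have h2 := Nat.minFac_dvd v
    rw [hv] at h2
    obtain ⟨r, hr, hr2⟩ := (Prime.dvd_finsetProd_iff h1.prime _).mp h2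
    rw [Finset.mem_filter] at hr
    have : v.minFac = r := (Nat.prime_dvd_prime_iff_eq h1 (hprime r hr.1)).mp hr2
    have h3 := hr.2
    omega
  have hfd : (f * d).Coprime v := by
    apply Nat.Coprime.mul_left _ hcdv
    exact hc.coprime_dvd_right ⟨d, by rw [← hdv]; ring⟩
  have heq : 2 * (S (f * d) * S v) + 1 = 3 * ((f * d) * v) := by
    rw [← S_mul hfd, mul_assoc f d v, hdv]
    exact h
  have h1 := minFac_le (mul_ne_zero hf hd0) hv2 heq
  have h2 : v.primeFactors.card ≤ K := by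
    refine le_trans (Finset.card_le_card ?_) hK
    apply Nat.primeFactors_mono _ (mul_ne_zero hf hs0)
    exact ⟨f * d, by rw [← hdv]; ring⟩
  calc q ≤ v.minFac := hmf
    _ ≤ 6 * v.primeFactors.card * (f * d) := h1
    _ ≤ 6 * K * (f * d) := Nat.mul_le_mul_right _ (Nat.mul_le_mul_left _ h2)
    _ = _ := by ring

/-- Every solution has a unitary divisor in a prescribed window. -/
theorem window {n x : ℕ} (hn : n ≠ 0) (hnx : n ≤ x) (hx : x < n ^ 2)
    (h : 2 * S n + 1 = 3 * n) (K : ℕ) (hK1 : 1 ≤ K) (hK : n.primeFactors.card ≤ K) :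
    ∃ a b d v : ℕ, 1 ≤ a ∧ 1 ≤ b ∧ 1 ≤ d ∧ 1 ≤ v ∧ n = ((a ^ 2 * b ^ 3) * d) * v ∧
      ((a ^ 2 * b ^ 3) * d).Coprime v ∧ (a ^ 2 * b ^ 3) * d ^ 2 ≤ 6 * K * x ∧
      x < (a ^ 2 * b ^ 3) ^ 3 * d ^ 2 * (6 * K) := by
  obtain ⟨a, b, s, ha, hb, hns, hc, hs⟩ := decomp n hn
  set f := a ^ 2 * b ^ 3 with hf
  have hf1 : 1 ≤ f := by rw [hf]; exact Nat.mul_pos (pow_pos ha 2) (pow_pos hb 3)
  have hs0 : s ≠ 0 := hs.ne_zero
  have hg := growth (by omega : f ≠ 0) hs hc (by rw [← hns]; exact h) K (by rw [← hns]; exact hK)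
  set Z := Nat.sqrt (6 * K * x / f) with hZ
  have hfn : f ≤ n := by rw [hns]; exact Nat.le_mul_of_pos_right _ (Nat.pos_of_ne_zero hs0)
  have hZ1 : 1 ≤ Z := by
    rw [hZ, Nat.le_sqrt]
    rw [Nat.le_div_iff_mul_le hf1]
    nlinarith
  have hZ2 : f * Z ^ 2 ≤ 6 * K * x := by
    have h1 : Z ^ 2 ≤ 6 * K * x / f := by rw [sq]; exact Nat.sqrt_le _
    calc f * Z ^ 2 ≤ f * (6 * K * x / f) := Nat.mul_le_mul_left _ h1
      _ ≤ _ := Nat.mul_div_le _ _
  have hZ3 : 6 * K * x < f * (Z + 1) ^ 2 := by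
    have h1 : 6 * K * x / f < (Z + 1) ^ 2 := by
      exact Nat.lt_succ_sqrt' _
    have h2 := (Nat.div_lt_iff_lt_mul hf1).mp h1
    rw [mul_comm f]
    exact h2
  by_cases hZs : Z ≤ s
  · have hprod : ∏ r ∈ s.primeFactors, r = s := Nat.prod_primeFactors_of_squarefree hs
    obtain ⟨U, hU, h3, h4⟩ := dense (6 * K * f) (by nlinarith) s.primeFactors
      (fun q hq => (Nat.prime_of_mem_primeFactors hq).pos) hg Z hZ1 (by rw [hprod]; exact hZs)
    set d := ∏ r ∈ U, r with hd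
    have hdv : d * ∏ r ∈ s.primeFactors \ U, r = s := by
      rw [hd, mul_comm, Finset.prod_sdiff hU, hprod]
    set v := ∏ r ∈ s.primeFactors \ U, r with hv
    have hd0 : d ≠ 0 := by rintro e; rw [e, zero_mul] at hdv; exact hs0 hdv.symm
    have hv0 : v ≠ 0 := by rintro e; rw [e, mul_zero] at hdv; exact hs0 hdv.symm
    have hcdv : d.Coprime v := by
      have := hs
      rw [← hdv] at this
      exact Nat.coprime_of_squarefree_mul this
    refine ⟨a, b, d, v, ha, hb, Nat.pos_of_ne_zero hd0, Nat.pos_of_ne_zero hv0, ?_, ?_, ?_, ?_⟩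
    · rw [hns, ← hdv]; ring
    · apply Nat.Coprime.mul_left _ hcdv
      exact hc.coprime_dvd_right ⟨d, by rw [← hdv]; ring⟩
    · calc f * d ^ 2 ≤ f * Z ^ 2 := Nat.mul_le_mul_left _ (Nat.pow_le_pow_left h3 2)
        _ ≤ _ := hZ2
    · have h5 : Z + 1 ≤ 6 * K * f * d := h4
      have h6 : 6 * K * x < f * (6 * K * f * d) ^ 2 :=
        lt_of_lt_of_le hZ3 (Nat.mul_le_mul_left _ (Nat.pow_le_pow_left h5 2))
      have h7 : (6 * K) * x < (6 * K) * (f ^ 3 * d ^ 2 * (6 * K)) := by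
        calc (6 * K) * x = 6 * K * x := rfl
          _ < f * (6 * K * f * d) ^ 2 := h6
          _ = _ := by ring
      exact Nat.lt_of_mul_lt_mul_left h7
  · push Not at hZs
    refine ⟨a, b, s, 1, ha, hb, Nat.pos_of_ne_zero hs0, le_refl _, ?_, by simp, ?_, ?_⟩
    · rw [hns]; ring
    · calc f * s ^ 2 ≤ f * Z ^ 2 := Nat.mul_le_mul_left _ (Nat.pow_le_pow_left hZs.le 2)
        _ ≤ _ := hZ2
    · calc x < n ^ 2 := hx
        _ = 1 * (f ^ 2 * s ^ 2) * 1 := by rw [hns]; ring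
        _ ≤ f * (f ^ 2 * s ^ 2) * (6 * K) :=
            Nat.mul_le_mul (Nat.mul_le_mul_right _ hf1) (by omega)
        _ = _ := by ring

end Pool.H67.GRM
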