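import Pool.Agent.H67.GRM.B

set_option autoImplicit false

namespace Pool.H67.GRM

open Finset

/-- The cofactors of a unitary divisor `m`. -/
def V (x m : ℕ) : Finset ℕ :=
  (Icc 1 (x / m)).filter (fun v => 2 * (S m * S v) + 1 = 3 * (m * v))

theorem V_card (x m : ℕ) (hm : 1 ≤ m) : ((V x m).card : ℝ) ≤ x / (m : ℝ) ^ 2 + 1 := by
  have hSm : m ≤ S m := le_S (by omega)
  have hSpos : 0 < S m := by omega
  have h1 : (V x m).card ≤ x / m / S m + 1 := by
    have : (V x m).card ≤ (range (x / m / S m + 1)).card := by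
      apply Finset.card_le_card_of_injOn (fun v => v / S m)
      · intro v hv
        simp only [V, Finset.coe_filter, Finset.mem_Icc, Set.mem_ofPred_eq] at hv
        simp only [Finset.coe_range, Set.mem_Iio]
        exact Nat.lt_succ_of_le (Nat.div_le_div_right hv.1.2)
      · intro v hv w hw hvw
        simp only [V, Finset.coe_filter, Finset.mem_Icc, Set.mem_ofPred_eq] at hv hw
        simp only at hvw
        -- congruence
        have hcop : (S m).Coprime (3 * m) := by
          have e : 2 * (S m * S v) + 1 = (3 * m) * v := by rw [hv.2]; ring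
          apply Nat.Coprime.symm
          apply Nat.coprime_of_dvd
          intro k hk hk1 hk2
          have d1 : k ∣ (3 * m) * v := hk1.mul_right v
          have d2 : k ∣ 2 * (S m * S v) := (hk2.mul_right (S v)).mul_left 2
          rw [← e] at d1
          exact hk.one_lt.ne' (Nat.dvd_one.mp ((Nat.dvd_add_right d2).mp d1))
        have hmod : v ≡ w [MOD S m] := by
          have e1 : (3 * m) * v ≡ 1 [MOD S m] := by
            have : (3 * m) * v = S m * (2 * S v) + 1 := by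
              have := hv.2; linarith
            rw [this]
            exact (Nat.modEq_iff_dvd' (by omega)).mpr (by simp) |>.symm
          have e2 : (3 * m) * w ≡ 1 [MOD S m] := by
            have : (3 * m) * w = S m * (2 * S w) + 1 := by
              have := hw.2; linarith
            rw [this]
            exact (Nat.modEq_iff_dvd' (by omega)).mpr (by simp) |>.symm
          exact Nat.ModEq.cancel_left_of_coprime (by rwa [Nat.coprime_iff_gcd_eq_one] at hcop)
            (e1.trans e2.symm)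
        calc v = S m * (v / S m) + v % S m := (Nat.div_add_mod v (S m)).symm
          _ = S m * (w / S m) + w % S m := by rw [hvw, hmod]
          _ = w := Nat.div_add_mod w (S m)
    rwa [Finset.card_range] at this
  have hm' : (1 : ℝ) ≤ m := by exact_mod_cast hm
  have h2 : ((x / m / S m : ℕ) : ℝ) ≤ x / (m : ℝ) ^ 2 := by
    have h3 : x / m / S m ≤ x / m / m := Nat.div_le_div_left hSm hm
    calc ((x / m / S m : ℕ) : ℝ) ≤ ((x / m / m : ℕ) : ℝ) := by exact_mod_cast h3
      _ = ((x / (m * m) : ℕ) : ℝ) := by rw [Nat.div_div_eq_div_mul]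
      _ ≤ (x : ℝ) / ((m * m : ℕ) : ℝ) := Nat.cast_div_le
      _ = _ := by push_cast; rw [sq]
  calc ((V x m).card : ℝ) ≤ ((x / m / S m + 1 : ℕ) : ℝ) := by exact_mod_cast h1
    _ = ((x / m / S m : ℕ) : ℝ) + 1 := by push_cast; ring
    _ ≤ _ := by linarith

theorem tail_Ico (k N : ℕ) (hk : 1 ≤ k) (hN : k ≤ N) :
    ∑ d ∈ Ico k N, 1 / (d : ℝ) ^ 2 ≤ 2 / (k : ℝ) - 2 / (N : ℝ) := by
  induction N, hN using Nat.le_induction with
  | base => simp
  | succ N hN ih =>
    rw [Finset.sum_Ico_succ_top hN]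
    have hN' : (1 : ℝ) ≤ N := by exact_mod_cast hk.trans hN
    have : 1 / (N : ℝ) ^ 2 ≤ 2 / (N : ℝ) - 2 / ((N + 1 : ℕ) : ℝ) := by
      push_cast
      rw [div_sub_div _ _ (by positivity) (by positivity), div_le_div_iff₀ (by positivity) (by positivity)]
      nlinarith
    linarith

theorem tail (D : Finset ℕ) (t : ℝ) (ht : 0 < t) (hD : ∀ d ∈ D, t < d) :
    ∑ d ∈ D, 1 / (d : ℝ) ^ 2 ≤ 2 / t := by
  set k := ⌊t⌋₊ + 1 with hk
  have hkt : t < k := by rw [hk]; push_cast; exact Nat.lt_floor_add_one t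
  have hsub : D ⊆ Ico k (k + D.sup id + 1) := by
    intro d hd
    rw [Finset.mem_Ico]
    constructor
    · rw [hk]
      have := hD d hd
      have h2 : ⌊t⌋₊ < d := (Nat.floor_lt ht.le).mpr this
      omega
    · have : d ≤ D.sup id := Finset.le_sup (f := id) hd
      omega
  calc ∑ d ∈ D, 1 / (d : ℝ) ^ 2 ≤ ∑ d ∈ Ico k (k + D.sup id + 1), 1 / (d : ℝ) ^ 2 :=
        Finset.sum_le_sum_of_subset_of_nonneg hsub (fun _ _ _ => by positivity)
    _ ≤ 2 / (k : ℝ) - 2 / ((k + D.sup id + 1 : ℕ) : ℝ) := tail_Ico _ _ (by omega) (by omega)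
    _ ≤ 2 / (k : ℝ) := by
        have : (0 : ℝ) ≤ 2 / ((k + D.sup id + 1 : ℕ) : ℝ) := by positivity
        linarith
    _ ≤ 2 / t := by
        apply div_le_div_of_nonneg_left (by norm_num) ht hkt.le

/-- The sum over the window. -/
theorem inner (x f K : ℕ) (hx : 1 ≤ x) (hf : 1 ≤ f) (hK : 1 ≤ K) :
    ∑ d ∈ (Icc 1 x).filter (fun d => f * d ^ 2 ≤ 6 * K * x ∧ x < f ^ 3 * d ^ 2 * (6 * K)),
      ((V x (f * d)).card : ℝ) ≤ 3 * (Real.sqrt (6 * K * x) * (1 / Real.sqrt f)) := by
  set D := (Icc 1 x).filter (fun d => f * d ^ 2 ≤ 6 * K * x ∧ x < f ^ 3 * d ^ 2 * (6 * K)) with hD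
  have hx' : (1 : ℝ) ≤ x := by exact_mod_cast hx
  have hf' : (1 : ℝ) ≤ f := by exact_mod_cast hf
  have hK' : (1 : ℝ) ≤ K := by exact_mod_cast hK
  set R := Real.sqrt (6 * K * x / f) with hR
  have hRR : Real.sqrt (6 * K * x) * (1 / Real.sqrt f) = R := by
    rw [hR, Real.sqrt_div (by positivity)]
    ring
  rw [hRR]
  have hR0 : 0 < R := Real.sqrt_pos.mpr (by positivity)
  have hR2 : R ^ 2 = 6 * K * x / f := Real.sq_sqrt (by positivity)
  set t := Real.sqrt (x / (6 * K * f ^ 3)) with ht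
  have ht0 : 0 < t := Real.sqrt_pos.mpr (by positivity)
  have ht2 : t ^ 2 = x / (6 * K * f ^ 3) := Real.sq_sqrt (by positivity)
  have hmem : ∀ d ∈ D, 1 ≤ d ∧ (d : ℝ) ≤ R ∧ t < d := by
    intro d hd
    rw [hD, Finset.mem_filter, Finset.mem_Icc] at hd
    obtain ⟨⟨h1, _⟩, h2, h3⟩ := hd
    refine ⟨h1, ?_, ?_⟩
    · apply Real.le_sqrt_of_sq_le
      rw [le_div_iff₀ (by positivity)]
      have : (f : ℝ) * d ^ 2 ≤ 6 * K * x := by exact_mod_cast h2
      linarith
    · rw [ht, Real.sqrt_lt' (by exact_mod_cast h1)]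
      rw [div_lt_iff₀ (by positivity)]
      have : (x : ℝ) < f ^ 3 * d ^ 2 * (6 * K) := by exact_mod_cast h3
      linarith
  have hcard : (D.card : ℝ) ≤ R := by
    have h1 : D ⊆ Icc 1 ⌊R⌋₊ := by
      intro d hd
      rw [Finset.mem_Icc]
      exact ⟨(hmem d hd).1, Nat.le_floor (hmem d hd).2.1⟩
    have h2 := Finset.card_le_card h1
    rw [Nat.card_Icc, Nat.add_sub_cancel] at h2
    calc (D.card : ℝ) ≤ (⌊R⌋₊ : ℝ) := by exact_mod_cast h2
      _ ≤ R := Nat.floor_le hR0.le
  have htail := tail D t ht0 (fun d hd => (hmem d hd).2.2)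
  have key : (x : ℝ) / f ^ 2 * (2 / t) = 2 * R := by
    have h1 : (x : ℝ) / (f ^ 2 * t) = R := by
      have e1 : ((x : ℝ) / (f ^ 2 * t)) ^ 2 = R ^ 2 := by
        rw [hR2, div_pow, mul_pow, ht2]
        field_simp
      have p1 : 0 < (x : ℝ) / (f ^ 2 * t) := by positivity
      exact (pow_left_inj₀ p1.le hR0.le two_ne_zero).mp e1
    rw [← h1]
    field_simp
  calc ∑ d ∈ D, ((V x (f * d)).card : ℝ)
      ≤ ∑ d ∈ D, ((x : ℝ) / f ^ 2 * (1 / (d : ℝ) ^ 2) + 1) := by
        apply Finset.sum_le_sum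
        intro d hd
        have h1 := V_card x (f * d) (Nat.mul_pos hf (hmem d hd).1)
        have hd1 : (1 : ℝ) ≤ d := by exact_mod_cast (hmem d hd).1
        have : (x : ℝ) / ((f * d : ℕ) : ℝ) ^ 2 = x / f ^ 2 * (1 / (d : ℝ) ^ 2) := by
          push_cast
          rw [mul_pow]
          field_simp
        rwa [this] at h1
    _ = (x : ℝ) / f ^ 2 * ∑ d ∈ D, 1 / (d : ℝ) ^ 2 + D.card := by
        rw [Finset.sum_add_distrib, ← Finset.mul_sum]
        simp
    _ ≤ (x : ℝ) / f ^ 2 * (2 / t) + R := by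
        gcongr
    _ = 3 * R := by rw [key]; ring

end Pool.H67.GRM
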