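import Pool.Agent.H67.GRM.C

set_option autoImplicit false

namespace Pool.H67.GRM

open Finset

theorem even_case {n : ℕ} (hn : 1 ≤ n) (he : Even n)
    (h : ∑ d ∈ n.properDivisors, d = n / 2) : n = 2 := by
  obtain ⟨m, hm⟩ := he
  have hm2 : n / 2 = m := by omega
  rw [hm2] at h
  by_contra hne
  have hm1 : 2 ≤ m := by omega
  have h1 : ({1, m} : Finset ℕ) ⊆ n.properDivisors := by
    intro d hd
    simp only [mem_insert, mem_singleton] at hd
    rw [Nat.mem_properDivisors]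
    rcases hd with rfl | rfl
    · exact ⟨one_dvd _, by omega⟩
    · exact ⟨⟨2, by omega⟩, by omega⟩
  have h2 : ∑ d ∈ ({1, m} : Finset ℕ), d ≤ ∑ d ∈ n.properDivisors, d :=
    Finset.sum_le_sum_of_subset h1
  rw [Finset.sum_pair (by omega)] at h2
  omega

theorem odd_case {n : ℕ} (ho : ¬ Even n)
    (h : ∑ d ∈ n.properDivisors, d = n / 2) : 2 * S n + 1 = 3 * n := by
  have h1 : S n = (∑ d ∈ n.properDivisors, d) + n :=
    Nat.sum_divisors_eq_sum_properDivisors_add_self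
  rw [Nat.not_even_iff] at ho
  omega

/-- The set of solutions up to `x`. -/
def E (x : ℕ) : Finset ℕ :=
  (Icc 1 x).filter (fun n => ∑ d ∈ n.properDivisors, d = n / 2)

/-- The range of `d`. -/
def W (x K f : ℕ) : Finset ℕ :=
  (Icc 1 x).filter (fun d => f * d ^ 2 ≤ 6 * K * x ∧ x < f ^ 3 * d ^ 2 * (6 * K))

theorem E_subset (x : ℕ) (hx : 2 ≤ x) :
    E x ⊆ ({2} ∪ Icc 1 (Nat.sqrt x)) ∪ (Icc 1 x).biUnion (fun a => (Icc 1 x).biUnion (fun b =>
      (W x (Nat.log 2 x) (a ^ 2 * b ^ 3)).biUnion (fun d =>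
        (V x ((a ^ 2 * b ^ 3) * d)).image (fun v => ((a ^ 2 * b ^ 3) * d) * v)))) := by
  intro n hn
  unfold E at hn
  rw [Finset.mem_filter, Finset.mem_Icc] at hn
  obtain ⟨⟨hn1, hnx⟩, h⟩ := hn
  by_cases he : Even n
  · have := even_case hn1 he h
    subst this
    simp
  have h3 := odd_case he h
  by_cases hs : x < n ^ 2
  · have hK1 : 1 ≤ Nat.log 2 x := Nat.le_log_of_pow_le (by norm_num) (by simpa using hx)
    have hK : n.primeFactors.card ≤ Nat.log 2 x :=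
      (omega_le (by omega)).trans (Nat.log_mono_right hnx)
    obtain ⟨a, b, d, v, ha, hb, hd, hv, hnv, hc, hw1, hw2⟩ :=
      window (by omega) hnx hs h3 _ hK1 hK
    set f := a ^ 2 * b ^ 3 with hf
    have hf1 : 1 ≤ f := by rw [hf]; exact Nat.mul_pos (pow_pos ha 2) (pow_pos hb 3)
    have hfdv : f * d * v ≤ x := by rw [← hnv]; exact hnx
    have hfx : f ≤ x := by
      calc f = f * 1 * 1 := by ring
        _ ≤ f * d * v := Nat.mul_le_mul (Nat.mul_le_mul_left _ hd) hv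
        _ ≤ x := hfdv
    have hax : a ≤ x := by
      calc a ≤ a ^ 2 := Nat.le_self_pow (by norm_num) a
        _ ≤ a ^ 2 * b ^ 3 := Nat.le_mul_of_pos_right _ (pow_pos hb 3)
        _ ≤ x := hfx
    have hbx : b ≤ x := by
      calc b ≤ b ^ 3 := Nat.le_self_pow (by norm_num) b
        _ ≤ a ^ 2 * b ^ 3 := Nat.le_mul_of_pos_left _ (pow_pos ha 2)
        _ ≤ x := hfx
    have hdx : d ≤ x := by
      calc d = 1 * d * 1 := by ring
        _ ≤ f * d * v := Nat.mul_le_mul (Nat.mul_le_mul_right _ hf1) hv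
        _ ≤ x := hfdv
    apply Finset.mem_union_right
    simp only [Finset.mem_biUnion, Finset.mem_image]
    refine ⟨a, Finset.mem_Icc.mpr ⟨ha, hax⟩, b, Finset.mem_Icc.mpr ⟨hb, hbx⟩, d, ?_, v, ?_, ?_⟩
    · unfold W
      rw [Finset.mem_filter, Finset.mem_Icc]
      exact ⟨⟨hd, hdx⟩, hw1, hw2⟩
    · unfold V
      rw [Finset.mem_filter, Finset.mem_Icc]
      refine ⟨⟨hv, ?_⟩, ?_⟩
      · rw [Nat.le_div_iff_mul_le (Nat.mul_pos hf1 hd)]
        rw [mul_comm v]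
        exact hfdv
      · rw [← S_mul hc, ← hnv]
        exact h3
    · exact hnv.symm
  · apply Finset.mem_union_left
    apply Finset.mem_union_right
    rw [Finset.mem_Icc]
    refine ⟨hn1, ?_⟩
    rw [Nat.le_sqrt]
    push Not at hs
    rw [← sq]
    exact hs

theorem sum_b (N : ℕ) (hN : 1 ≤ N) :
    ∑ b ∈ Icc 1 N, 1 / Real.sqrt ((b : ℝ) ^ 3) ≤ 3 - 2 / Real.sqrt N := by
  induction N, hN using Nat.le_induction with
  | base => norm_num
  | succ N hN ih =>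
    rw [Finset.sum_Icc_succ_top (by omega)]
    have hN' : (1 : ℝ) ≤ N := by exact_mod_cast hN
    set s := Real.sqrt N with hs
    set t := Real.sqrt ((N + 1 : ℕ) : ℝ) with ht
    have hs0 : 0 < s := Real.sqrt_pos.mpr (by linarith)
    have ht0 : 0 < t := Real.sqrt_pos.mpr (by positivity)
    have hs2 : s ^ 2 = N := Real.sq_sqrt (by linarith)
    have ht2 : t ^ 2 = N + 1 := by
      rw [ht, Real.sq_sqrt (by positivity)]; push_cast; ring
    have hst : s ≤ t := by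
      apply Real.sqrt_le_sqrt
      push_cast; linarith
    have h3 : Real.sqrt ((((N + 1 : ℕ) : ℝ)) ^ 3) = t ^ 3 := by
      rw [Real.sqrt_eq_iff_mul_self_eq (by positivity) (by positivity)]
      have : (((N + 1 : ℕ) : ℝ)) = t ^ 2 := by rw [ht2]; push_cast; ring
      rw [this]
      ring
    rw [h3]
    have key : 1 / t ^ 3 ≤ 2 / s - 2 / t := by
      rw [div_sub_div _ _ hs0.ne' ht0.ne', div_le_div_iff₀ (by positivity) (by positivity)]
      have e1 : (t - s) * (t + s) = 1 := by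
        have : (t - s) * (t + s) = t ^ 2 - s ^ 2 := by ring
        rw [this, hs2, ht2]; ring
      have hts : 0 ≤ t - s := by linarith
      -- goal: 1 * (s*t) ≤ (2*t - s*2) * t^3
      have e2 : 1 ≤ (t - s) * (2 * t) := by nlinarith
      have e3 : s * t ≤ t ^ 2 := by nlinarith
      have e4 : t ^ 2 * 1 ≤ t ^ 2 * ((t - s) * (2 * t)) :=
        mul_le_mul_of_nonneg_left e2 (by positivity)
      nlinarith
    linarith

theorem sum_a (x : ℕ) : ∑ a ∈ Icc 1 x, 1 / (a : ℝ) ≤ 1 + Real.log x := by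
  have h := harmonic_le_one_add_log x
  rw [harmonic_eq_sum_Icc] at h
  push_cast at h
  simpa [one_div] using h

theorem E_card (x : ℕ) (hx : 2 ≤ x) :
    ((E x).card : ℝ) ≤ (1 + Real.sqrt x) +
      3 * (Real.sqrt (6 * (Nat.log 2 x : ℕ) * x) * ((1 + Real.log x) * 3)) := by
  have hK1 : 1 ≤ Nat.log 2 x := Nat.le_log_of_pow_le (by norm_num) (by simpa using hx)
  set K := Nat.log 2 x with hK
  have h0 := Finset.card_le_card (E_subset x hx)
  have h1 : (E x).card ≤ (1 + Nat.sqrt x) + ∑ a ∈ Icc 1 x, ∑ b ∈ Icc 1 x,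
      ∑ d ∈ W x K (a ^ 2 * b ^ 3), (V x ((a ^ 2 * b ^ 3) * d)).card := by
    refine h0.trans ((Finset.card_union_le _ _).trans ?_)
    apply Nat.add_le_add
    · refine (Finset.card_union_le _ _).trans ?_
      simp
    · refine Finset.card_biUnion_le.trans (Finset.sum_le_sum ?_)
      intro a _
      refine Finset.card_biUnion_le.trans (Finset.sum_le_sum ?_)
      intro b _
      refine Finset.card_biUnion_le.trans (Finset.sum_le_sum ?_)
      intro d _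
      exact Finset.card_image_le
  have h2 : ((E x).card : ℝ) ≤ (1 + (Nat.sqrt x : ℝ)) + ∑ a ∈ Icc 1 x, ∑ b ∈ Icc 1 x,
      ∑ d ∈ W x K (a ^ 2 * b ^ 3), ((V x ((a ^ 2 * b ^ 3) * d)).card : ℝ) := by
    exact_mod_cast h1
  have h3 : ((Nat.sqrt x : ℕ) : ℝ) ≤ Real.sqrt x := Real.nat_sqrt_le_real_sqrt
  have h4 : ∑ a ∈ Icc 1 x, ∑ b ∈ Icc 1 x,
      ∑ d ∈ W x K (a ^ 2 * b ^ 3), ((V x ((a ^ 2 * b ^ 3) * d)).card : ℝ) ≤
      ∑ a ∈ Icc 1 x, ∑ b ∈ Icc 1 x, 3 * (Real.sqrt (6 * K * x) *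
        ((1 / (a : ℝ)) * (1 / Real.sqrt ((b : ℝ) ^ 3)))) := by
    apply Finset.sum_le_sum
    intro a ha
    apply Finset.sum_le_sum
    intro b hb
    rw [Finset.mem_Icc] at ha hb
    have hf1 : 1 ≤ a ^ 2 * b ^ 3 := Nat.mul_pos (pow_pos ha.1 2) (pow_pos hb.1 3)
    have h5 := inner x (a ^ 2 * b ^ 3) K (by omega) hf1 hK1
    have h6 : Real.sqrt ((a ^ 2 * b ^ 3 : ℕ) : ℝ) = a * Real.sqrt ((b : ℝ) ^ 3) := by
      push_cast
      rw [Real.sqrt_mul (by positivity), Real.sqrt_sq (by positivity)]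
    rw [h6] at h5
    refine h5.trans (le_of_eq ?_)
    rw [one_div_mul_one_div]
  have h7 : ∑ a ∈ Icc 1 x, ∑ b ∈ Icc 1 x, 3 * (Real.sqrt (6 * K * x) *
        ((1 / (a : ℝ)) * (1 / Real.sqrt ((b : ℝ) ^ 3)))) =
      3 * (Real.sqrt (6 * K * x) * ((∑ a ∈ Icc 1 x, 1 / (a : ℝ)) *
        ∑ b ∈ Icc 1 x, 1 / Real.sqrt ((b : ℝ) ^ 3))) := by
    rw [Finset.sum_mul_sum, Finset.mul_sum, Finset.mul_sum]
    apply Finset.sum_congr rfl
    intro a _
    rw [Finset.mul_sum, Finset.mul_sum]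
  have h8 : ∑ b ∈ Icc 1 x, 1 / Real.sqrt ((b : ℝ) ^ 3) ≤ 3 := by
    have := sum_b x (by omega)
    have h9 : 0 ≤ 2 / Real.sqrt x := by positivity
    linarith
  have h10 : (0 : ℝ) ≤ ∑ b ∈ Icc 1 x, 1 / Real.sqrt ((b : ℝ) ^ 3) :=
    Finset.sum_nonneg (fun _ _ => by positivity)
  have h11 : (0 : ℝ) ≤ 1 + Real.log x := by
    have : 0 ≤ Real.log x := Real.log_natCast_nonneg x
    linarith
  have h12 : (∑ a ∈ Icc 1 x, 1 / (a : ℝ)) * ∑ b ∈ Icc 1 x, 1 / Real.sqrt ((b : ℝ) ^ 3) ≤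
      (1 + Real.log x) * 3 := mul_le_mul (sum_a x) h8 h10 h11
  have h13 : 3 * (Real.sqrt (6 * K * x) * ((∑ a ∈ Icc 1 x, 1 / (a : ℝ)) *
        ∑ b ∈ Icc 1 x, 1 / Real.sqrt ((b : ℝ) ^ 3))) ≤
      3 * (Real.sqrt (6 * K * x) * ((1 + Real.log x) * 3)) := by
    gcongr
  linarith

theorem main (x : ℕ) (hx : 2 ≤ x) :
    ((E x).card : ℝ) ≤ 85 * Real.sqrt x * (Real.log x) ^ (3 / 2 : ℝ) := by
  have h1 := E_card x hx
  have hx' : (2 : ℝ) ≤ x := by exact_mod_cast hx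
  have hlog2 : (0.6931471803 : ℝ) < Real.log 2 := Real.log_two_gt_d9
  have hL : Real.log 2 ≤ Real.log x := Real.log_le_log (by norm_num) hx'
  set L := Real.log x with hLdef
  have hL0 : 0 < L := by linarith
  have hpow : L ^ (3 / 2 : ℝ) = L * Real.sqrt L := by
    rw [Real.sqrt_eq_rpow, show (3 / 2 : ℝ) = 1 + 1 / 2 by norm_num, Real.rpow_add hL0,
      Real.rpow_one]
  rw [hpow]
  have hK : ((Nat.log 2 x : ℕ) : ℝ) * 2 ≤ 3 * L := by
    have h2 : (2 : ℝ) ^ (Nat.log 2 x) ≤ x := by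
      exact_mod_cast Nat.pow_log_le_self 2 (by omega : x ≠ 0)
    have h3 := Real.log_le_log (by positivity) h2
    rw [Real.log_pow] at h3
    have h4 : (0 : ℝ) ≤ (Nat.log 2 x : ℕ) := Nat.cast_nonneg _
    nlinarith
  set s := Real.sqrt x with hs
  have hs1 : 1 ≤ s := by
    rw [hs]; exact Real.one_le_sqrt.mpr (by linarith)
  have hsq : Real.sqrt (6 * (Nat.log 2 x : ℕ) * x) ≤ 3 * (s * Real.sqrt L) := by
    have h5 : (6 : ℝ) * (Nat.log 2 x : ℕ) * x ≤ (3 : ℝ) ^ 2 * (x * L) := by nlinarith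
    calc Real.sqrt (6 * (Nat.log 2 x : ℕ) * x) ≤ Real.sqrt ((3 : ℝ) ^ 2 * (x * L)) :=
          Real.sqrt_le_sqrt h5
      _ = 3 * (s * Real.sqrt L) := by
          rw [Real.sqrt_mul (by positivity), Real.sqrt_sq (by norm_num),
            Real.sqrt_mul (by positivity)]
  set q := Real.sqrt L with hq
  have hq2 : q ^ 2 = L := Real.sq_sqrt hL0.le
  have hq0 : 0 < q := Real.sqrt_pos.mpr hL0
  have hq1 : (0.8 : ℝ) ≤ q := by
    rw [hq]; apply Real.le_sqrt_of_sq_le; norm_num; linarith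
  have hlin : 1 + L ≤ 3 * L := by linarith
  have h6 : 3 * (Real.sqrt (6 * (Nat.log 2 x : ℕ) * x) * ((1 + L) * 3)) ≤
      3 * ((3 * (s * q)) * ((3 * L) * 3)) := by
    gcongr
  have h7 : (1 : ℝ) ≤ 2 * (L * q) := by nlinarith
  have h8 : 1 + s ≤ 4 * (s * (L * q)) := by
    have : s * 1 ≤ s * (2 * (L * q)) := mul_le_mul_of_nonneg_left h7 (by linarith)
    nlinarith
  have h9 : 85 * s * (L * q) = 4 * (s * (L * q)) + 3 * ((3 * (s * q)) * ((3 * L) * 3)) := by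
    ring
  rw [h9]
  linarith

end Pool.H67.GRM
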